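import Pool.Agent.W449.Ses

/-!
# The core dimension as an infimum over decompositions
-/

set_option autoImplicit false

open CategoryTheory MonoidalCategory Module Limits

namespace Pool.Agent.W449.Core

variable {k G : Type} [Field k] [Group G] [Fintype G]

/-- The explicit biproduct bicone. -/
noncomputable def bicone (A B : Rep.{0} k G) : BinaryBicone A B where
  pt := Rep.of (A.ρ.prod B.ρ)
  fst := Rep.ofHom (.fst k A.ρ B.ρ)
  snd := Rep.ofHom (.snd k A.ρ B.ρ)
  inl := Rep.ofHom (.inl k A.ρ B.ρ)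
  inr := Rep.ofHom (.inr k A.ρ B.ρ)
  inl_fst := by ext1; simp
  inl_snd := by ext1; simp [Rep.zero_hom]
  inr_fst := by ext1; simp [Rep.zero_hom]
  inr_snd := by ext1; simp

/-- The biproduct is the product representation. -/
noncomputable def biprodIso (A B : Rep.{0} k G) : A ⊞ B ≅ Rep.of (A.ρ.prod B.ρ) :=
  (biprod.uniqueUpToIso A B (b := bicone A B) (isBinaryBilimitOfTotal _ (by
    change Rep.ofHom (.fst k A.ρ B.ρ) ≫ Rep.ofHom (.inl k A.ρ B.ρ) +
      Rep.ofHom (.snd k A.ρ B.ρ) ≫ Rep.ofHom (.inr k A.ρ B.ρ) = 𝟙 _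
    ext1
    simp [Rep.add_hom]))).symm

theorem w_biprod (A B : Rep.{0} k G) [FiniteDimensional k A.V] [FiniteDimensional k B.V] :
    w (A ⊞ B) = w A + w B := by
  rw [w_congr (biprodIso A B), w_prod]

/-- The canonical map from a free representation on `V` to `V`. -/
def PhiV {V : Type} [AddCommGroup V] [Module k V] (ρ : Representation k G V) :
    (freg (k := k) (G := G) V).IntertwiningMap ρ where
  toLinearMap := ∑ g : G, ρ g ∘ₗ LinearMap.proj g
  isIntertwining' g := by
    ext1 f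
    simp only [LinearMap.comp_apply, LinearMap.sum_apply, LinearMap.proj_apply, freg_apply]
    rw [map_sum]
    refine Fintype.sum_bijective (fun h => g⁻¹ * h) (Group.mulLeft_bijective g⁻¹) _ _ (fun h => ?_)
    rw [← LinearMap.comp_apply (ρ g), ← Module.End.mul_eq_comp, ← map_mul]
    simp

theorem PhiV_apply {V : Type} [AddCommGroup V] [Module k V] (ρ : Representation k G V)
    (c : G → V) : PhiV ρ c = ∑ g : G, ρ g (c g) := by
  change (∑ g : G, ρ g ∘ₗ LinearMap.proj g) c = _
  simp [LinearMap.sum_apply]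

theorem PhiV_surjective {V : Type} [AddCommGroup V] [Module k V] (ρ : Representation k G V) :
    Function.Surjective (PhiV ρ) := by
  classical
  intro v
  refine ⟨Pi.single 1 v, ?_⟩
  rw [PhiV_apply, Finset.sum_eq_single 1]
  · simp
  · intro g _ hg
    simp [hg]
  · simp

theorem hig_of_projective (P : Rep.{0} k G) [Projective P] : Hig P.ρ := by
  let π : Rep.of (freg (k := k) (G := G) P.V) ⟶ P := Rep.ofHom (PhiV P.ρ)
  have hepi : Epi π := (Rep.epi_iff_surjective π).2 (PhiV_surjective P.ρ)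
  let s : P ⟶ Rep.of (freg (k := k) (G := G) P.V) := Projective.factorThru (𝟙 P) π
  have hs : s ≫ π = 𝟙 P := Projective.factorThru_comp (𝟙 P) π
  refine (hig_freg (k := k) (G := G) P.V).of_retract P.ρ s.hom (PhiV P.ρ) (fun x => ?_)
  have := congrArg (fun φ => (Rep.Hom.hom φ) x) hs
  exact this

theorem Hig.w_eq_zero (hfix : PFix k G) {P : Rep.{0} k G} [FiniteDimensional k P.V]
    (h : Hig P.ρ) : w P = 0 := by
  have := h.finrank_eq hfix
  unfold w
  rw [this]
  push_cast
  ring

/-- Higman's criterion implies projectivity. -/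
theorem Hig.projective {P : Rep.{0} k G} (h : Hig P.ρ) : Projective P := by
  obtain ⟨θ, hθ⟩ := h
  constructor
  intro E X f e he
  have hsurj : Function.Surjective e.hom.toLinearMap := (Rep.epi_iff_surjective e).1 he
  obtain ⟨r, hr⟩ := e.hom.toLinearMap.exists_rightInverse_of_surjective
    (LinearMap.range_eq_top.2 hsurj)
  let l : P.V →ₗ[k] E.V := ∑ g : G, E.ρ g ∘ₗ r ∘ₗ f.hom.toLinearMap ∘ₗ θ ∘ₗ P.ρ g⁻¹
  have hl : ∀ x, l x = ∑ g : G, E.ρ g (r (f.hom (θ (P.ρ g⁻¹ x)))) := by
    intro x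
    simp only [l, LinearMap.sum_apply, LinearMap.comp_apply]
    rfl
  have hint : ∀ g, l ∘ₗ P.ρ g = E.ρ g ∘ₗ l := by
    intro g
    ext x
    rw [LinearMap.comp_apply, LinearMap.comp_apply, hl, hl, map_sum]
    refine Fintype.sum_bijective (fun h => g⁻¹ * h) (Group.mulLeft_bijective g⁻¹) _ _ (fun h => ?_)
    rw [← LinearMap.comp_apply (E.ρ g), ← Module.End.mul_eq_comp, ← map_mul, mul_inv_cancel_left,
      mul_inv_rev, inv_inv, map_mul, Module.End.mul_apply]
  refine ⟨Rep.ofHom (σ := E.ρ) (ρ := P.ρ) ⟨l, hint⟩, ?_⟩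
  ext x
  change e.hom (l x) = f.hom x
  rw [hl, map_sum]
  have h1 : ∀ g : G, e.hom (E.ρ g (r (f.hom (θ (P.ρ g⁻¹ x))))) =
      f.hom (P.ρ g (θ (P.ρ g⁻¹ x))) := by
    intro g
    have h2 := e.hom.isIntertwining _ _ g (r (f.hom (θ (P.ρ g⁻¹ x))))
    have h3 := f.hom.isIntertwining _ _ g (θ (P.ρ g⁻¹ x))
    have h4 : e.hom (r (f.hom (θ (P.ρ g⁻¹ x)))) = f.hom (θ (P.ρ g⁻¹ x)) :=
      LinearMap.congr_fun hr _
    rw [h4] at h2
    exact h2.trans h3.symm
  rw [Finset.sum_congr rfl (fun g _ => h1 g), ← map_sum, hθ]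

/-- The core dimension equals `w`. -/
theorem sInf_eq_w (hfix : PFix k G) (X : Rep.{0} k G) [FiniteDimensional k X.V] :
    ((sInf {d : ℕ | ∃ N P' : Rep.{0} k G, Projective P' ∧ Nonempty (X ≅ N ⊞ P') ∧
      Module.finrank k N.V = d} : ℕ) : ℤ) = w X := by
  obtain ⟨N0, hN0, s, hs, hdim, ⟨e⟩⟩ := exists_decomp X.ρ hfix
  have hmem : finrank k N0 ∈ {d : ℕ | ∃ N P' : Rep.{0} k G, Projective P' ∧
      Nonempty (X ≅ N ⊞ P') ∧ Module.finrank k N.V = d} := by
    refine ⟨Rep.of (X.ρ.subrepresentation N0 hN0), Rep.of (freg (k := k) (G := G) (Fin s → k)),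
      (hig_freg _).projective, ⟨?_⟩, rfl⟩
    exact (Rep.mkIso e).symm ≪≫ (biprodIso (Rep.of (X.ρ.subrepresentation N0 hN0))
      (Rep.of (freg (k := k) (G := G) (Fin s → k)))).symm
  have hw : (finrank k N0 : ℤ) = w X := by
    unfold w
    rw [← hs, ← hdim]
    push_cast
    ring
  apply le_antisymm
  · rw [← hw]
    exact_mod_cast Nat.sInf_le hmem
  · obtain ⟨N, P', hP', ⟨i⟩, hd⟩ := Nat.sInf_mem ⟨_, hmem⟩
    rw [← hd]
    have hN : FiniteDimensional k N.V := by
      let j : N ⟶ X := biprod.inl ≫ i.inv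
      have hj : Mono j := inferInstance
      exact FiniteDimensional.of_injective j.hom.toLinearMap ((Rep.mono_iff_injective j).1 hj)
    have hP : FiniteDimensional k P'.V := by
      let j : P' ⟶ X := biprod.inr ≫ i.inv
      have hj : Mono j := inferInstance
      exact FiniteDimensional.of_injective j.hom.toLinearMap ((Rep.mono_iff_injective j).1 hj)
    rw [w_congr i, w_biprod, (hig_of_projective P').w_eq_zero hfix, add_zero]
    unfold w
    have : (0 : ℤ) ≤ Fintype.card G * finrank k (LinearMap.range N.ρ.norm) := by positivity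
    linarith

end Pool.Agent.W449.Core
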