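import Pool.Agent.W449.Syz
import Pool.Agent.W449.Proj

/-!
# The recursion for the core dimensions of tensor powers
-/

set_option autoImplicit false

open CategoryTheory MonoidalCategory Module

namespace Pool.Agent.W449.Klein

open Pool.Agent.W449.Core

theorem two_of_zero {T S : Type} [AddCommGroup T] [Module F2 T] [AddCommGroup S] [Module F2 S]
    (X Y : T →ₗ[F2] S) (hX : X = 0) (hY : Y = 0) (g : V4) : two X Y g = LinearMap.id := by
  subst hX hY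
  have h1 : twoOp (0 : T →ₗ[F2] S) = 1 := by
    refine LinearMap.ext fun x => ?_
    simp
  change ((if (Multiplicative.toAdd g).1 = 0 then 1 else twoOp (0 : T →ₗ[F2] S)) *
    (if (Multiplicative.toAdd g).2 = 0 then 1 else twoOp (0 : T →ₗ[F2] S))) = 1
  rw [h1]
  simp

/-- A representation with trivial action on a one-dimensional space is the unit. -/
noncomputable def isoUnit {V : Type} [AddCommGroup V] [Module F2 V] (ρ : Representation F2 V4 V)
    (e : V ≃ₗ[F2] F2) (h : ∀ g, ρ g = LinearMap.id) : Rep.of ρ ≅ 𝟙_ (Rep.{0} F2 V4) :=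
  Rep.mkIso (Representation.Equiv.mk (σ := Representation.trivial F2 V4 F2) e (fun g => by
    rw [h g]; rfl))

noncomputable def isoWp0 : Wp 0 ≅ 𝟙_ (Rep.{0} F2 V4) :=
  isoUnit _ ((LinearEquiv.prodUnique (R := F2) (M := Fin 1 → F2) (M₂ := Fin 0 → F2)).trans
    (LinearEquiv.funUnique (Fin 1) F2 F2))
    (two_of_zero _ _ (by ext f i; exact i.elim0) (by ext f i; exact i.elim0))

noncomputable def isoWn0 : Wn 0 ≅ 𝟙_ (Rep.{0} F2 V4) :=
  isoUnit _ ((LinearEquiv.uniqueProd (R := F2) (M := Fin 1 → F2) (M₂ := Fin 0 → F2)).trans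
    (LinearEquiv.funUnique (Fin 1) F2 F2))
    (two_of_zero _ _ (by ext i; exact i.elim0) (by ext i; exact i.elim0))

/-- The syzygies `Ω^m k` for all integers `m`. -/
noncomputable def Wz : ℤ → Rep.{0} F2 V4
  | .ofNat m => Wp m
  | .negSucc m => Wn (m + 1)

theorem w_Wz (m : ℤ) : w (Wz m) = 2 * |m| + 1 := by
  cases m with
  | ofNat m => change w (Wp m) = _; rw [w_Wp]; simp
  | negSucc m =>
    change w (Wn (m + 1)) = _
    rw [w_Wn, Int.negSucc_eq, abs_neg]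
    push_cast
    rw [abs_of_nonneg (by positivity)]

instance (m : ℤ) : FiniteDimensional F2 (Wz m).V := by
  cases m with
  | ofNat m => change FiniteDimensional F2 ((Fin (m + 1) → F2) × (Fin m → F2)); infer_instance
  | negSucc m =>
    change FiniteDimensional F2 ((Fin (m + 1) → F2) × (Fin (m + 1 + 1) → F2)); infer_instance

instance finTensor (X Y : Rep.{0} F2 V4) [FiniteDimensional F2 X.V] [FiniteDimensional F2 Y.V] :
    FiniteDimensional F2 (X ⊗ Y).V := by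
  change FiniteDimensional F2 (TensorProduct F2 X.V Y.V)
  infer_instance

/-- Tensoring with the unit. -/
noncomputable def unitTensor {X : Rep.{0} F2 V4} (e : X ≅ 𝟙_ (Rep.{0} F2 V4)) (Z : Rep.{0} F2 V4) :
    X ⊗ Z ≅ Z := (whiskerRightIso e Z) ≪≫ λ_ Z

theorem w_Wz_tensor (m : ℤ) (Z : Rep.{0} F2 V4) [FiniteDimensional F2 Z.V] :
    w (Wz m ⊗ Z) = gg (Wz (m + 1) ⊗ Z) := by
  cases m with
  | ofNat m => exact w_Wp_tensor m Z
  | negSucc m =>
    cases m with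
    | zero =>
      change w (Wn (0 + 1) ⊗ Z) = gg (Wp 0 ⊗ Z)
      rw [w_Wn_tensor 0 Z, gg_congr (unitTensor isoWp0 Z), gg_congr (unitTensor isoWn0 Z)]
    | succ m => exact w_Wn_tensor (m + 1) Z

/-- `Ω k`. -/
noncomputable abbrev I : Rep.{0} F2 V4 := Wz 1

/-- `Ω^{-1} k`. -/
noncomputable abbrev J : Rep.{0} F2 V4 := Wz (-1)

theorem w_W0 (Z : Rep.{0} F2 V4) : w (Wz 0 ⊗ Z) = w Z := w_congr (unitTensor isoWp0 Z)

theorem gg_W0 (Z : Rep.{0} F2 V4) : gg (Wz 0 ⊗ Z) = gg Z := gg_congr (unitTensor isoWp0 Z)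

/-- Exchanging two tensor factors. -/
noncomputable def swap3 (A B C : Rep.{0} F2 V4) : A ⊗ (B ⊗ C) ≅ B ⊗ (A ⊗ C) :=
  (α_ A B C).symm ≪≫ whiskerRightIso (β_ A B) C ≪≫ α_ B A C

theorem stepI (m : ℤ) (Z : Rep.{0} F2 V4) [FiniteDimensional F2 Z.V] :
    w (I ⊗ (Wz m ⊗ Z)) = w (Wz (m + 1) ⊗ Z) := by
  rw [w_congr (swap3 I (Wz m) Z), w_Wz_tensor m, gg_congr (swap3 (Wz (m + 1)) I Z)]
  have := w_Wz_tensor 0 (Wz (m + 1) ⊗ Z)
  rw [zero_add] at this
  rw [← this, w_W0]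

theorem stepJ (m : ℤ) (Z : Rep.{0} F2 V4) [FiniteDimensional F2 Z.V] :
    w (J ⊗ (Wz m ⊗ Z)) = w (Wz (m - 1) ⊗ Z) := by
  have h1 := w_Wz_tensor (-1) (Wz m ⊗ Z)
  have h2 := w_Wz_tensor (m - 1) Z
  rw [show (-1 : ℤ) + 1 = 0 by norm_num, gg_W0] at h1
  rw [sub_add_cancel] at h2
  rw [h1, h2]

/-- `Ω k ⊕ Ω^{-1} k`. -/
noncomputable abbrev N : Rep.{0} F2 V4 := Rep.of (I.ρ.prod J.ρ)

theorem w_N_tensor (Z : Rep.{0} F2 V4) [FiniteDimensional F2 Z.V] :
    w (N ⊗ Z) = w (I ⊗ Z) + w (J ⊗ Z) := by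
  rw [← Rep.of_tensor]
  have e : ((I.ρ.prod J.ρ).tprod Z.ρ).Equiv ((I.ρ.tprod Z.ρ).prod (J.ρ.tprod Z.ρ)) := by
    refine Representation.Equiv.mk (TensorProduct.prodLeft F2 F2 I.V J.V Z.V) (fun g => ?_)
    apply TensorProduct.ext'
    rintro ⟨x, y⟩ z
    simp
  have h1 : w (Rep.of ((I.ρ.prod J.ρ).tprod Z.ρ)) =
      w (Rep.of ((I.ρ.tprod Z.ρ).prod (J.ρ.tprod Z.ρ))) := w_congr (Rep.mkIso e)
  change w (Rep.of ((I.ρ.prod J.ρ).tprod Z.ρ)) = _
  rw [h1, w_prod]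
  rfl

/-- The walk operator. -/
def T (a : ℤ → ℤ) (m : ℤ) : ℤ := a (m + 1) + a (m - 1)

theorem w_step (Z : Rep.{0} F2 V4) [FiniteDimensional F2 Z.V] (m : ℤ) :
    w (N ⊗ (Wz m ⊗ Z)) = T (fun m => w (Wz m ⊗ Z)) m := by
  rw [w_N_tensor, stepI, stepJ]
  rfl

/-- The module of the counterexample. -/
noncomputable abbrev M : Rep.{0} F2 V4 := N ⊗ N

instance : FiniteDimensional F2 N.V := by
  change FiniteDimensional F2 (I.V × J.V)
  infer_instance

instance : FiniteDimensional F2 M.V := finTensor N N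

/-- Moving factors. -/
noncomputable def moveIso (A X B : Rep.{0} F2 V4) : A ⊗ (X ⊗ (B ⊗ B)) ≅ B ⊗ (A ⊗ (B ⊗ X)) :=
  whiskerLeftIso A ((β_ X (B ⊗ B)) ≪≫ α_ B B X) ≪≫ swap3 A B (B ⊗ X)

/-- The tensor powers. -/
noncomputable def pw (n : ℕ) : Rep.{0} F2 V4 :=
  (fun X : Rep.{0} F2 V4 => X ⊗ M)^[n] (𝟙_ (Rep.{0} F2 V4))

theorem pw_succ (n : ℕ) : pw (n + 1) = pw n ⊗ M := by
  unfold pw
  rw [Function.iterate_succ_apply']

instance finPw (n : ℕ) : FiniteDimensional F2 (pw n).V := by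
  induction n with
  | zero => change FiniteDimensional F2 F2; infer_instance
  | succ n ih => rw [pw_succ]; exact finTensor _ _

theorem w_pw (n : ℕ) : (fun m => w (Wz m ⊗ pw n)) = (T ∘ T)^[n] (fun m => 2 * |m| + 1) := by
  induction n with
  | zero =>
    funext m
    change w (Wz m ⊗ 𝟙_ (Rep.{0} F2 V4)) = _
    rw [w_congr (ρ_ (Wz m)), w_Wz]
    rfl
  | succ n ih =>
    rw [Function.iterate_succ_apply', ← ih]
    funext m
    rw [pw_succ, w_congr (moveIso (Wz m) (pw n) N), w_step]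
    change T _ m = T (T _) m
    congr 1
    funext m
    rw [w_congr (swap3 (Wz m) N (pw n)), w_step]

theorem pfixV4 : PFix F2 V4 := by
  have : Fact (Nat.Prime 2) := ⟨Nat.prime_two⟩
  refine pfix_of_isPGroup 2 F2 V4 (IsPGroup.of_card (n := 2) ?_)
  simp [Nat.card_eq_fintype_card]

/-- The core dimensions of the tensor powers. -/
theorem core_eq (n : ℕ) :
    ((sInf {d : ℕ | ∃ N P' : Rep.{0} F2 V4, Projective P' ∧
      Nonempty ((fun X : Rep.{0} F2 V4 => X ⊗ M)^[n] (𝟙_ (Rep.{0} F2 V4)) ≅ N ⊞ P') ∧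
      Module.finrank F2 N.V = d} : ℕ) : ℤ) = (T ∘ T)^[n] (fun m => 2 * |m| + 1) 0 := by
  have h1 := sInf_eq_w pfixV4 (pw n)
  have h2 := congrFun (w_pw n) 0
  rw [← h2, w_W0, ← h1]
  rfl

end Pool.Agent.W449.Klein
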