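import Mathlib

/-!
# Closed walks and an irrational power series
-/

set_option autoImplicit false

namespace Pool.Agent.W449.Walk

/-- The shift. -/
def S : Module.End ℤ (ℤ → ℤ) where
  toFun a := fun m => a (m + 1)
  map_add' _ _ := rfl
  map_smul' _ _ := rfl

/-- The inverse shift. -/
def S' : Module.End ℤ (ℤ → ℤ) where
  toFun a := fun m => a (m - 1)
  map_add' _ _ := rfl
  map_smul' _ _ := rfl

theorem S_pow (n : ℕ) (a : ℤ → ℤ) (m : ℤ) : (S ^ n) a m = a (m + n) := by
  induction n generalizing a with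
  | zero => simp
  | succ n ih =>
    rw [pow_succ, Module.End.mul_apply, ih]
    change a (m + n + 1) = _
    push_cast
    ring_nf

theorem S'_pow (n : ℕ) (a : ℤ → ℤ) (m : ℤ) : (S' ^ n) a m = a (m - n) := by
  induction n generalizing a with
  | zero => simp
  | succ n ih =>
    rw [pow_succ, Module.End.mul_apply, ih]
    change a (m - n - 1) = _
    push_cast
    ring_nf

theorem comm : Commute S S' := by
  refine LinearMap.ext fun a => ?_
  funext m
  change a (m + 1 - 1) = a (m - 1 + 1)
  simp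

/-- The delta function. -/
def delta : ℤ → ℤ := fun m => if m = 0 then 1 else 0

theorem walk (j : ℕ) : ((S + S') ^ j) delta 0 =
    ∑ i ∈ Finset.range (j + 1), (j.choose i : ℤ) * delta (2 * i - j) := by
  rw [comm.add_pow, LinearMap.sum_apply, Finset.sum_apply]
  refine Finset.sum_congr rfl fun i hi => ?_
  have hij : i ≤ j := by
    have := Finset.mem_range.1 hi
    omega
  have h1 : ∀ a : ℤ → ℤ, ((j.choose i : ℕ) : Module.End ℤ (ℤ → ℤ)) a =
      fun m => (j.choose i : ℤ) * a m := by
    intro a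
    rw [Module.End.natCast_apply]
    funext m
    simp
  rw [Module.End.mul_apply, Module.End.mul_apply, h1, S_pow, S'_pow]
  congr 2
  push_cast [Nat.cast_sub hij]
  ring

theorem walk_even (n : ℕ) : ((S + S') ^ (2 * n)) delta 0 = (n.centralBinom : ℤ) := by
  rw [walk, Finset.sum_eq_single n]
  · rw [Nat.centralBinom]
    have : delta (2 * (n : ℤ) - ((2 * n : ℕ) : ℤ)) = 1 := by
      unfold delta
      rw [if_pos]
      push_cast
      ring
    rw [this, mul_one]
  · intro i _ hi
    have : delta (2 * (i : ℤ) - ((2 * n : ℕ) : ℤ)) = 0 := by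
      unfold delta
      rw [if_neg]
      push_cast
      omega
    rw [this, mul_zero]
  · intro h
    exact absurd (Finset.mem_range.2 (by omega)) h

theorem walk_odd (n : ℕ) : ((S + S') ^ (2 * n + 1)) delta 0 = 0 := by
  rw [walk]
  refine Finset.sum_eq_zero fun i _ => ?_
  have : delta (2 * (i : ℤ) - ((2 * n + 1 : ℕ) : ℤ)) = 0 := by
    unfold delta
    rw [if_neg]
    push_cast
    omega
  rw [this, mul_zero]

/-- The initial function. -/
def f0 : ℤ → ℤ := fun m => 2 * |m| + 1

theorem step_f0 : (S + S') f0 = (2 : ℤ) • f0 + (4 : ℤ) • delta := by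
  funext m
  change (2 * |m + 1| + 1) + (2 * |m - 1| + 1) = 2 * (2 * |m| + 1) + 4 * (if m = 0 then 1 else 0)
  rcases lt_trichotomy m 0 with h | h | h
  · rw [if_neg h.ne, abs_of_nonpos (by omega), abs_of_nonpos (by omega), abs_of_nonpos (by omega)]
    ring
  · subst h; norm_num
  · rw [if_neg h.ne', abs_of_nonneg (by omega), abs_of_nonneg (by omega),
      abs_of_nonneg (by omega)]
    ring

/-- The sequence of core dimensions. -/
def c (n : ℕ) : ℤ := ((S + S') ^ (2 * n)) f0 0

theorem c_zero : c 0 = 1 := by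
  unfold c
  simp [f0]

theorem c_succ (n : ℕ) : c (n + 1) = 4 * c n + 8 * (n.centralBinom : ℤ) := by
  have h1 : c (n + 1) = ((S + S') ^ (2 * n + 1)) ((S + S') f0) 0 := by
    unfold c
    rw [← Module.End.mul_apply, ← pow_succ]
    rfl
  have h2 : ((S + S') ^ (2 * n + 1)) f0 0 = ((S + S') ^ (2 * n)) ((S + S') f0) 0 := by
    rw [← Module.End.mul_apply, ← pow_succ]
  rw [h1, step_f0, map_add, map_smul, map_smul]
  change 2 * ((S + S') ^ (2 * n + 1)) f0 0 + 4 * ((S + S') ^ (2 * n + 1)) delta 0 = _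
  rw [h2, step_f0, map_add, map_smul, map_smul, walk_odd]
  change 2 * (2 * ((S + S') ^ (2 * n)) f0 0 + 4 * ((S + S') ^ (2 * n)) delta 0) + 4 * 0 = _
  rw [walk_even]
  unfold c
  ring

theorem iterate_eq (T : (ℤ → ℤ) → ℤ → ℤ) (hT : ∀ a m, T a m = a (m + 1) + a (m - 1)) (n : ℕ)
    (a : ℤ → ℤ) : (T ∘ T)^[n] a = ((S + S') ^ (2 * n)) a := by
  have hT' : T = fun a => (S + S') a := by
    funext a m
    rw [hT]; rfl
  induction n generalizing a with
  | zero => simp
  | succ n ih =>
    rw [Function.iterate_succ_apply, ih, hT']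
    simp only [Function.comp_apply]
    rw [← Module.End.mul_apply, ← Module.End.mul_apply, ← pow_succ, ← pow_succ]
    rfl

open PowerSeries

/-- The generating series of the central binomial coefficients. -/
noncomputable def C0 : PowerSeries ℚ := PowerSeries.mk fun n => (n.centralBinom : ℚ)

theorem mul_aux (f : PowerSeries ℚ) : (1 - 4 * X) * f = f - (4 : ℚ) • (X * f) := by
  rw [PowerSeries.smul_eq_C_mul]
  have : (C (4 : ℚ) : PowerSeries ℚ) = 4 := map_ofNat _ 4
  rw [this]
  ring

theorem C0_ode : (1 - 4 * X) * d⁄dX ℚ C0 = 2 * C0 := by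
  rw [mul_aux, two_mul]
  ext n
  cases n with
  | zero =>
    rw [map_sub, map_add, PowerSeries.coeff_smul, PowerSeries.coeff_zero_X_mul,
      PowerSeries.coeff_derivative]
    simp [C0, Nat.centralBinom]
    norm_num
  | succ n =>
    rw [map_sub, map_add, PowerSeries.coeff_smul, PowerSeries.coeff_succ_X_mul,
      PowerSeries.coeff_derivative, PowerSeries.coeff_derivative]
    have h := Nat.succ_mul_centralBinom_succ (n + 1)
    have h' : ((n : ℚ) + 1 + 1) * ((n + 1 + 1).centralBinom : ℚ) =
        2 * (2 * ((n : ℚ) + 1) + 1) * ((n + 1).centralBinom : ℚ) := by exact_mod_cast h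
    simp only [C0, PowerSeries.coeff_mk, smul_eq_mul]
    push_cast
    linear_combination h'

theorem C0_sq : (1 - 4 * X) * C0 ^ 2 = 1 := by
  apply PowerSeries.derivative.ext
  · rw [Derivation.leibniz, Derivation.leibniz_pow, map_sub, Derivation.leibniz]
    have h1 : d⁄dX ℚ (1 : PowerSeries ℚ) = 0 := by simp
    have h2 : d⁄dX ℚ (4 : PowerSeries ℚ) = 0 := by
      have : (4 : PowerSeries ℚ) = C (4 : ℚ) := (map_ofNat _ 4).symm
      rw [this, PowerSeries.derivative_C]
    rw [h1, h2, PowerSeries.derivative_X]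
    simp only [smul_eq_mul, mul_zero, add_zero, mul_one, zero_sub, nsmul_eq_mul]
    have := C0_ode
    push_cast
    linear_combination (2 * C0) * this
  · simp [C0]

/-- The generating series of the core dimensions. -/
noncomputable def F : PowerSeries ℚ := PowerSeries.mk fun n => (c n : ℚ)

theorem F_eq : (1 - 4 * X) * F = 1 + 8 * X * C0 := by
  have h8 : (8 * X * C0 : PowerSeries ℚ) = (8 : ℚ) • (X * C0) := by
    rw [PowerSeries.smul_eq_C_mul]
    have : (C (8 : ℚ) : PowerSeries ℚ) = 8 := map_ofNat _ 8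
    rw [this]
    ring
  rw [mul_aux, h8]
  ext n
  cases n with
  | zero =>
    rw [map_sub, map_add, PowerSeries.coeff_smul, PowerSeries.coeff_smul,
      PowerSeries.coeff_zero_X_mul, PowerSeries.coeff_zero_X_mul]
    simp [F, c_zero]
  | succ n =>
    rw [map_sub, map_add, PowerSeries.coeff_smul, PowerSeries.coeff_smul,
      PowerSeries.coeff_succ_X_mul, PowerSeries.coeff_succ_X_mul]
    simp only [F, C0, PowerSeries.coeff_mk, c_succ, smul_eq_mul, PowerSeries.coeff_one]
    push_cast
    simp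

theorem not_rational (P Q : Polynomial ℚ) (hQ : Q ≠ 0)
    (h : (Q : PowerSeries ℚ) * F = (P : PowerSeries ℚ)) : False := by
  let R : Polynomial ℚ := (1 - 4 * Polynomial.X) * P - Q
  have hR : (R : PowerSeries ℚ) = 8 * X * (Q : PowerSeries ℚ) * C0 := by
    have h1 := F_eq
    have h4 : ((4 : Polynomial ℚ) : PowerSeries ℚ) = 4 := by
      have h5 : (4 : Polynomial ℚ) = Polynomial.C 4 := (map_ofNat _ 4).symm
      rw [h5, Polynomial.coe_C]; exact map_ofNat _ 4
    have h2 : (R : PowerSeries ℚ) = (1 - 4 * X) * (P : PowerSeries ℚ) - (Q : PowerSeries ℚ) := by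
      simp only [R]
      rw [Polynomial.coe_sub, Polynomial.coe_mul, Polynomial.coe_sub, Polynomial.coe_mul, h4,
        Polynomial.coe_one, Polynomial.coe_X]
    rw [h2, ← h]
    linear_combination (Q : PowerSeries ℚ) * h1
  have hsq : (64 * Polynomial.X ^ 2 * Q ^ 2 : Polynomial ℚ) =
      (1 - 4 * Polynomial.X) * R ^ 2 := by
    apply Polynomial.coe_injective ℚ
    have h3 := C0_sq
    have h64 : (((64 : Polynomial ℚ)) : PowerSeries ℚ) = 64 := by
      have h5 : (64 : Polynomial ℚ) = Polynomial.C 64 := (map_ofNat _ 64).symm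
      rw [h5, Polynomial.coe_C]; exact map_ofNat _ 64
    have h4 : ((4 : Polynomial ℚ) : PowerSeries ℚ) = 4 := by
      have h5 : (4 : Polynomial ℚ) = Polynomial.C 4 := (map_ofNat _ 4).symm
      rw [h5, Polynomial.coe_C]; exact map_ofNat _ 4
    rw [Polynomial.coe_mul, Polynomial.coe_mul, Polynomial.coe_mul, Polynomial.coe_sub,
      Polynomial.coe_mul, h4, h64, Polynomial.coe_one, Polynomial.coe_pow, Polynomial.coe_pow,
      Polynomial.coe_pow, Polynomial.coe_X, hR]
    linear_combination (-64 * X ^ 2 * (Q : PowerSeries ℚ) ^ 2) * h3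
  have hR0 : R ≠ 0 := by
    intro h0
    rw [h0] at hsq
    have : (64 * Polynomial.X ^ 2 * Q ^ 2 : Polynomial ℚ) ≠ 0 := by
      refine mul_ne_zero (mul_ne_zero (by norm_num) (pow_ne_zero _ Polynomial.X_ne_zero))
        (pow_ne_zero _ hQ)
    apply this
    rw [hsq]; ring
  have hd1 : (64 * Polynomial.X ^ 2 * Q ^ 2 : Polynomial ℚ).natDegree = 2 + 2 * Q.natDegree := by
    have : (64 : Polynomial ℚ) = Polynomial.C 64 := (map_ofNat _ 64).symm
    rw [this, Polynomial.natDegree_mul, Polynomial.natDegree_C_mul_X_pow, Polynomial.natDegree_pow]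
    · norm_num
    · exact mul_ne_zero (by simp) (pow_ne_zero _ Polynomial.X_ne_zero)
    · exact pow_ne_zero _ hQ
  have hlin : (1 - 4 * Polynomial.X : Polynomial ℚ).natDegree = 1 := by
    have : (1 - 4 * Polynomial.X : Polynomial ℚ) = Polynomial.C (-4) * Polynomial.X +
        Polynomial.C 1 := by
      have h5 : (Polynomial.C (-4) : Polynomial ℚ) = -4 := by
        rw [map_neg]; exact congrArg _ (map_ofNat _ 4)
      rw [h5, map_one]
      ring
    rw [this]
    exact Polynomial.natDegree_linear (by norm_num)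
  have hlin0 : (1 - 4 * Polynomial.X : Polynomial ℚ) ≠ 0 := by
    intro h0
    rw [h0] at hlin
    simp at hlin
  have hd2 : ((1 - 4 * Polynomial.X) * R ^ 2 : Polynomial ℚ).natDegree = 1 + 2 * R.natDegree := by
    rw [Polynomial.natDegree_mul hlin0 (pow_ne_zero _ hR0), hlin, Polynomial.natDegree_pow]
  rw [hsq, hd2] at hd1
  omega

end Pool.Agent.W449.Walk

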