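import Mathlib

/-!
# Core dimensions of representations of a finite `p`-group in characteristic `p`

`w X = dim X - |G| * rank (norm X)` is the dimension of the projective-free part of `X`.
-/

set_option autoImplicit false

open CategoryTheory MonoidalCategory Module

namespace Pool.Agent.W449.Core

/-- Every nonzero invariant subspace of a representation contains a nonzero fixed vector. -/
def PFix (k G : Type) [Field k] [Group G] : Prop :=
  ∀ (V : Type) [AddCommGroup V] [Module k V] (ρ : Representation k G V) (S : Submodule k V),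
    (∀ g, ∀ x ∈ S, ρ g x ∈ S) → S ≠ ⊥ → ∃ x ∈ S, x ≠ 0 ∧ ∀ g, ρ g x = x

theorem pfix_of_isPGroup (p : ℕ) [hp : Fact p.Prime] (k G : Type) [Field k] [CharP k p] [Group G]
    [Finite G] (hG : IsPGroup p G) : PFix k G := by
  intro V _ _ ρ S hS hne
  classical
  obtain ⟨v, hvS, hv⟩ := Submodule.exists_mem_ne_zero_of_ne_bot hne
  let _ : Algebra (ZMod p) k := ZMod.algebra k p
  let _ : Module (ZMod p) V := Module.compHom V (algebraMap (ZMod p) k)
  have : IsScalarTower (ZMod p) k V := ⟨fun a b c => by
    rw [Algebra.smul_def, mul_smul]; rfl⟩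
  let W : Submodule (ZMod p) V := Submodule.span (ZMod p) (Set.range fun g => ρ g v)
  have hWS : ∀ x ∈ W, x ∈ S := by
    intro x hx
    have : W ≤ S.restrictScalars (ZMod p) := by
      rw [Submodule.span_le]
      rintro _ ⟨g, rfl⟩
      exact hS g v hvS
    exact this hx
  have hWinv : ∀ g, ∀ x ∈ W, ρ g x ∈ W := by
    intro g x hx
    induction hx using Submodule.span_induction with
    | mem x hx =>
      obtain ⟨h, rfl⟩ := hx
      apply Submodule.subset_span
      exact ⟨g * h, by simp⟩
    | zero => simp
    | add x y _ _ hx hy => rw [map_add]; exact W.add_mem hx hy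
    | smul a x _ hx =>
      have : ρ g (a • x) = a • ρ g x := by
        have h1 : (a • x : V) = (algebraMap (ZMod p) k a) • x := rfl
        have h2 : (a • ρ g x : V) = (algebraMap (ZMod p) k a) • ρ g x := rfl
        rw [h1, h2, map_smul]
      rw [this]
      exact W.smul_mem a hx
  have : Module.Finite (ZMod p) W := Module.Finite.span_of_finite _ (Set.finite_range _)
  have : Finite W := Module.finite_of_finite (ZMod p)
  let _ : MulAction G W :=
    { smul := fun g x => ⟨ρ g x, hWinv g x x.2⟩
      one_smul := fun x => Subtype.ext (by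
        change ρ 1 (x : V) = x
        simp)
      mul_smul := fun g h x => Subtype.ext (by
        change ρ (g * h) (x : V) = ρ g (ρ h (x : V))
        simp) }
  have hsmul : ∀ (g : G) (x : W), ((g • x : W) : V) = ρ g x := fun _ _ => rfl
  have hvW : v ∈ W := Submodule.subset_span ⟨1, by simp⟩
  have hcard : p ∣ Nat.card W := by
    have h1 : Nat.card W = Nat.card (ZMod p) ^ Module.finrank (ZMod p) W :=
      Module.natCard_eq_pow_finrank
    rw [h1, Nat.card_zmod]
    apply dvd_pow_self
    have : Nontrivial W := ⟨⟨⟨v, hvW⟩, 0, fun h => hv (congrArg Subtype.val h)⟩⟩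
    exact (Module.finrank_pos).ne'
  obtain ⟨b, hb, hb0⟩ := hG.exists_fixed_point_of_prime_dvd_card_of_fixed_point W hcard
    (a := (0 : W)) (fun g => Subtype.ext (by rw [hsmul]; simp))
  refine ⟨b, hWS _ b.2, fun h => hb0 (Subtype.ext h.symm), fun g => ?_⟩
  rw [← hsmul, hb g]

variable {k G : Type} [Field k] [Group G] [Fintype G]

/-- The dimension of the projective-free part. -/
noncomputable def w (X : Rep.{0} k G) : ℤ :=
  (finrank k X.V : ℤ) - Fintype.card G * finrank k (LinearMap.range X.ρ.norm)

/-- `|G| * dim X^G - dim X`. -/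
noncomputable def gg (X : Rep.{0} k G) : ℤ :=
  Fintype.card G * finrank k X.ρ.invariants - (finrank k X.V : ℤ)

/-- The free representation of functions `G → U`. -/
def freg (U : Type) [AddCommGroup U] [Module k U] : Representation k G (G → U) where
  toFun g := LinearMap.funLeft k U (fun h => g⁻¹ * h)
  map_one' := by ext f h; simp [LinearMap.funLeft_apply]
  map_mul' a b := by
    ext f h
    simp [LinearMap.funLeft_apply, mul_assoc]

omit [Fintype G] in
@[simp] theorem freg_apply (U : Type) [AddCommGroup U] [Module k U] (g h : G) (f : G → U) :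
    freg (k := k) U g f h = f (g⁻¹ * h) := rfl

/-- Higman's criterion. -/
def Hig {V : Type} [AddCommGroup V] [Module k V] (ρ : Representation k G V) : Prop :=
  ∃ θ : V →ₗ[k] V, ∀ v, ∑ g : G, ρ g (θ (ρ g⁻¹ v)) = v

theorem hig_freg (U : Type) [AddCommGroup U] [Module k U] : Hig (freg (k := k) (G := G) U) := by
  classical
  refine ⟨(LinearMap.single k (fun _ : G => U) 1).comp (LinearMap.proj 1), fun f => ?_⟩
  funext h
  rw [Finset.sum_apply, Finset.sum_eq_single h]
  · simp [freg_apply]
  · intro g _ hg
    have : g⁻¹ * h ≠ 1 := fun h1 => hg (by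
      rw [inv_mul_eq_one] at h1; exact h1)
    simp [freg_apply, this]
  · simp

theorem Hig.tprod {V W : Type} [AddCommGroup V] [Module k V] [AddCommGroup W] [Module k W]
    {ρ : Representation k G V} (h : Hig ρ) (τ : Representation k G W) : Hig (ρ.tprod τ) := by
  obtain ⟨θ, hθ⟩ := h
  refine ⟨TensorProduct.map θ LinearMap.id, fun v => ?_⟩
  have key : (∑ g : G, (ρ.tprod τ) g ∘ₗ (TensorProduct.map θ LinearMap.id) ∘ₗ (ρ.tprod τ) g⁻¹) =
      LinearMap.id := by
    apply TensorProduct.ext'
    intro x y
    rw [LinearMap.sum_apply]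
    simp only [LinearMap.comp_apply, Representation.tprod_apply, TensorProduct.map_tmul,
      LinearMap.id_apply, Representation.self_inv_apply]
    rw [← TensorProduct.sum_tmul, hθ]
  have := LinearMap.congr_fun key v
  rw [LinearMap.sum_apply] at this
  exact this

theorem Hig.of_retract {V W : Type} [AddCommGroup V] [Module k V] [AddCommGroup W] [Module k W]
    {ρ : Representation k G V} (h : Hig ρ) (τ : Representation k G W)
    (i : τ.IntertwiningMap ρ) (r : ρ.IntertwiningMap τ) (hir : ∀ x, r (i x) = x) : Hig τ := by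
  obtain ⟨θ, hθ⟩ := h
  refine ⟨r.toLinearMap ∘ₗ θ ∘ₗ i.toLinearMap, fun v => ?_⟩
  have : ∀ g : G, τ g ((r.toLinearMap ∘ₗ θ ∘ₗ i.toLinearMap) (τ g⁻¹ v)) =
      r.toLinearMap (ρ g (θ (ρ g⁻¹ (i v)))) := by
    intro g
    simp only [LinearMap.comp_apply, Representation.IntertwiningMap.toLinearMap_apply]
    rw [r.isIntertwining, i.isIntertwining]
  rw [Finset.sum_congr rfl (fun g _ => this g), ← map_sum, hθ]
  exact hir v


section decomp

variable {V : Type} [AddCommGroup V] [Module k V] (ρ : Representation k G V)

/-- The map from a free representation given by a family of vectors. -/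
def Phi {ι : Type} [Fintype ι] (v : ι → V) : (freg (k := k) (G := G) (ι → k)).IntertwiningMap ρ where
  toLinearMap := ∑ g : G, ρ g ∘ₗ (Fintype.linearCombination k v) ∘ₗ LinearMap.proj g
  isIntertwining' g := by
    ext1 f
    simp only [LinearMap.comp_apply, LinearMap.sum_apply, LinearMap.proj_apply, freg_apply]
    rw [map_sum]
    refine Fintype.sum_bijective (fun h => g⁻¹ * h) (Group.mulLeft_bijective g⁻¹) _ _ (fun h => ?_)
    rw [← LinearMap.comp_apply (ρ g), ← Module.End.mul_eq_comp, ← map_mul]
    simp

theorem Phi_apply {ι : Type} [Fintype ι] (v : ι → V) (c : G → ι → k) :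
    Phi ρ v c = ∑ g : G, ρ g (∑ i, c g i • v i) := by
  change (∑ g : G, ρ g ∘ₗ (Fintype.linearCombination k v) ∘ₗ LinearMap.proj g) c = _
  simp [LinearMap.sum_apply, Fintype.linearCombination_apply]

/-- The map to a free representation given by a family of functionals. -/
def Psi {ι : Type} [Fintype ι] (f : ι → V →ₗ[k] k) :
    ρ.IntertwiningMap (freg (k := k) (G := G) (ι → k)) where
  toLinearMap := LinearMap.pi fun g => (LinearMap.pi f) ∘ₗ ρ g⁻¹
  isIntertwining' g := by
    ext x h i
    simp only [LinearMap.comp_apply, LinearMap.pi_apply, freg_apply]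
    rw [mul_inv_rev, inv_inv, map_mul, Module.End.mul_apply]

omit [Fintype G] in
theorem Psi_apply {ι : Type} [Fintype ι] (f : ι → V →ₗ[k] k) (x : V) (g : G) (i : ι) :
    Psi ρ f x g i = f i (ρ g⁻¹ x) := rfl


theorem exists_family [FiniteDimensional k V] :
    ∃ (v : Fin (finrank k (LinearMap.range ρ.norm)) → V)
      (f : Fin (finrank k (LinearMap.range ρ.norm)) → V →ₗ[k] k),
      ∀ i j, f i (ρ.norm (v j)) = if i = j then 1 else 0 := by
  classical
  let b := Module.finBasis k (LinearMap.range ρ.norm)
  choose v hv using fun j => LinearMap.mem_range.1 (b j).2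
  choose f hf using fun i => LinearMap.exists_extend (b.coord i)
  refine ⟨v, f, fun i j => ?_⟩
  rw [hv j]
  have h1 := LinearMap.congr_fun (hf i) (b j)
  simp only [LinearMap.comp_apply, Submodule.subtype_apply] at h1
  rw [h1, Basis.coord_apply, Basis.repr_self, Finsupp.single_apply]
  by_cases h : i = j
  · simp [h]
  · simp [h, Ne.symm h]

theorem PsiPhi_injective (hfix : PFix k G) {s : ℕ} (v : Fin s → V) (f : Fin s → V →ₗ[k] k)
    (hvf : ∀ i j, f i (ρ.norm (v j)) = if i = j then 1 else 0) (c : G → Fin s → k)
    (hc : Psi ρ f (Phi ρ v c) = 0) : c = 0 := by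
  classical
  by_contra hne
  let T : (G → Fin s → k) →ₗ[k] (G → Fin s → k) :=
    (Psi ρ f).toLinearMap ∘ₗ (Phi ρ v).toLinearMap
  have hT : ∀ c, T c = Psi ρ f (Phi ρ v c) := fun _ => rfl
  have hS : LinearMap.ker T ≠ ⊥ := by
    intro h
    have : c ∈ LinearMap.ker T := by rw [LinearMap.mem_ker, hT]; exact hc
    rw [h, Submodule.mem_bot] at this
    exact hne this
  obtain ⟨d, hdS, hd0, hd⟩ := hfix _ (freg (k := k) (G := G) (Fin s → k)) (LinearMap.ker T)
    (by
      intro g x hx
      rw [LinearMap.mem_ker, hT] at hx ⊢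
      rw [(Phi ρ v).isIntertwining, (Psi ρ f).isIntertwining, hx, map_zero]) hS
  have hconst : ∀ h, d h = d 1 := by
    intro h
    have := congrFun (hd h) h
    rw [freg_apply] at this
    rw [← this]; simp
  have hPhi : Phi ρ v d = ρ.norm (∑ i, d 1 i • v i) := by
    rw [Phi_apply, Representation.norm, LinearMap.sum_apply]
    exact Finset.sum_congr rfl fun g _ => by rw [hconst g]
  rw [LinearMap.mem_ker, hT] at hdS
  apply hd0
  funext h i
  rw [hconst h]
  have h1 := congrFun (congrFun hdS 1) i
  rw [Psi_apply, hPhi] at h1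
  simp only [inv_one, map_one, Module.End.one_apply, map_sum, map_smul, hvf, smul_eq_mul,
    mul_ite, mul_one, mul_zero, Finset.sum_ite_eq, Finset.mem_univ, if_true, Pi.zero_apply] at h1
  simpa using h1

/-- `|G| * rank norm ≤ dim`. -/
theorem card_mul_rank_le (hfix : PFix k G) [FiniteDimensional k V] :
    Fintype.card G * finrank k (LinearMap.range ρ.norm) ≤ finrank k V := by
  obtain ⟨v, f, hvf⟩ := exists_family ρ
  have hinj : Function.Injective (Phi ρ v).toLinearMap := by
    rw [injective_iff_map_eq_zero]
    intro c hc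
    refine PsiPhi_injective ρ hfix v f hvf c ?_
    have : Phi ρ v c = 0 := hc
    rw [this, map_zero]
  have := LinearMap.finrank_le_finrank_of_injective hinj
  rw [Module.finrank_pi_fintype] at this
  simpa using this

/-- The decomposition of a representation as a representation with zero norm plus a free one. -/
theorem exists_decomp (hfix : PFix k G) [FiniteDimensional k V] :
    ∃ (N : Submodule k V) (hN : ∀ g, N ≤ N.comap (ρ g)) (s : ℕ),
      s = finrank k (LinearMap.range ρ.norm) ∧
      finrank k N + Fintype.card G * s = finrank k V ∧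
      Nonempty (((ρ.subrepresentation N hN).prod (freg (k := k) (G := G) (Fin s → k))).Equiv ρ) := by
  classical
  obtain ⟨s, hs, v, f, hvf⟩ : ∃ s, s = finrank k (LinearMap.range ρ.norm) ∧
      ∃ (v : Fin s → V) (f : Fin s → V →ₗ[k] k),
      ∀ i j, f i (ρ.norm (v j)) = if i = j then 1 else 0 := ⟨_, rfl, exists_family ρ⟩
  have hinj := PsiPhi_injective ρ hfix v f hvf
  let T : (G → Fin s → k) →ₗ[k] (G → Fin s → k) :=
    (Psi ρ f).toLinearMap ∘ₗ (Phi ρ v).toLinearMap
  have hTinj : Function.Injective T := (injective_iff_map_eq_zero T).2 hinj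
  have hTsurj : Function.Surjective T := LinearMap.injective_iff_surjective.1 hTinj
  let N : Submodule k V := LinearMap.ker (Psi ρ f).toLinearMap
  have hN : ∀ g, N ≤ N.comap (ρ g) := by
    intro g x hx
    rw [Submodule.mem_comap, LinearMap.mem_ker, Representation.IntertwiningMap.toLinearMap_apply,
      (Psi ρ f).isIntertwining]
    rw [LinearMap.mem_ker, Representation.IntertwiningMap.toLinearMap_apply] at hx
    rw [hx, map_zero]
  let e0 : (N × (G → Fin s → k)) →ₗ[k] V := N.subtype.coprod (Phi ρ v).toLinearMap
  have he0 : ∀ x c, e0 (x, c) = (x : V) + Phi ρ v c := by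
    intro x c
    simp [e0, Representation.IntertwiningMap.toLinearMap_apply]
  have hbij : Function.Bijective e0 := by
    constructor
    · rw [injective_iff_map_eq_zero]
      rintro ⟨x, c⟩ h
      rw [he0] at h
      have hx : Psi ρ f (x : V) = 0 := x.2
      have h1 : Psi ρ f (Phi ρ v c) = 0 := by
        have := congrArg (Psi ρ f) h
        rw [map_add, hx, zero_add, map_zero] at this
        exact this
      have hc := hinj c h1
      subst hc
      rw [map_zero, add_zero] at h
      ext
      · simpa using h
      · simp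
    · intro y
      obtain ⟨c, hc⟩ := hTsurj (Psi ρ f y)
      have hc' : Psi ρ f (Phi ρ v c) = Psi ρ f y := hc
      refine ⟨(⟨y - Phi ρ v c, ?_⟩, c), ?_⟩
      · rw [LinearMap.mem_ker, Representation.IntertwiningMap.toLinearMap_apply, map_sub, hc',
          sub_self]
      · rw [he0]; simp
  let e : (N × (G → Fin s → k)) ≃ₗ[k] V := LinearEquiv.ofBijective e0 hbij
  refine ⟨N, hN, s, hs, ?_, ⟨Representation.Equiv.mk e ?_⟩⟩
  · have := e.finrank_eq
    rw [Module.finrank_prod, Module.finrank_pi_fintype] at this
    simpa using this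
  · intro g
    refine LinearMap.ext fun y => ?_
    obtain ⟨x, c⟩ := y
    simp only [LinearMap.comp_apply, LinearEquiv.coe_coe]
    change e0 ((⟨ρ g x, hN g x.2⟩ : N), freg (k := k) (G := G) (Fin s → k) g c) = ρ g (e0 (x, c))
    rw [he0, he0, map_add, (Phi ρ v).isIntertwining]

theorem Hig.invariants_le {ρ : Representation k G V} (h : Hig ρ) (x : V) (hx : ∀ g, ρ g x = x) :
    x ∈ LinearMap.range ρ.norm := by
  obtain ⟨θ, hθ⟩ := h
  refine ⟨θ x, ?_⟩
  have := hθ x
  simp only [hx] at this
  rw [Representation.norm, LinearMap.sum_apply]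
  exact this

theorem Hig.finrank_eq {ρ : Representation k G V} [FiniteDimensional k V] (hfix : PFix k G)
    (h : Hig ρ) :
    finrank k V = Fintype.card G * finrank k (LinearMap.range ρ.norm) := by
  classical
  obtain ⟨v, f, hvf⟩ := exists_family ρ
  have hinj := PsiPhi_injective ρ hfix v f hvf
  refine le_antisymm ?_ (card_mul_rank_le ρ hfix)
  have hsurj : Function.Surjective (Phi ρ v).toLinearMap := by
    -- the kernel of Psi is zero
    have hker : LinearMap.ker (Psi ρ f).toLinearMap = ⊥ := by
      by_contra hne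
      obtain ⟨x, hxS, hx0, hx⟩ := hfix _ ρ (LinearMap.ker (Psi ρ f).toLinearMap)
        (by
          intro g x hx
          rw [LinearMap.mem_ker, Representation.IntertwiningMap.toLinearMap_apply] at hx ⊢
          rw [(Psi ρ f).isIntertwining, hx, map_zero]) hne
      rw [LinearMap.mem_ker, Representation.IntertwiningMap.toLinearMap_apply] at hxS
      obtain ⟨y, hy⟩ := h.invariants_le x hx
      -- x = norm y, in the span of the norm (v i)
      have hspan : ∃ a : Fin _ → k, x = ∑ i, a i • ρ.norm (v i) := by
        have hli : LinearIndependent k (fun i => (⟨ρ.norm (v i), ⟨v i, rfl⟩⟩ :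
            LinearMap.range ρ.norm)) := by
          rw [Fintype.linearIndependent_iff]
          intro a ha i
          have h1 := congrArg Subtype.val ha
          rw [AddSubmonoidClass.coe_finsetSum] at h1
          have h2 := congrArg (f i) h1
          simp only [SetLike.val_smul, map_sum, map_smul, hvf, smul_eq_mul, mul_ite, mul_one,
            mul_zero, Finset.sum_ite_eq, Finset.mem_univ, if_true, ZeroMemClass.coe_zero,
            map_zero] at h2
          exact h2
        have hsp := hli.span_eq_top_of_card_eq_finrank' (by simp)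
        have hm : (⟨x, ⟨y, hy⟩⟩ : LinearMap.range ρ.norm) ∈ (⊤ : Submodule k _) := trivial
        rw [← hsp, Submodule.mem_span_range_iff_exists_fun] at hm
        obtain ⟨a, ha⟩ := hm
        refine ⟨a, ?_⟩
        have h1 := congrArg Subtype.val ha
        rw [AddSubmonoidClass.coe_finsetSum] at h1
        exact h1.symm
      obtain ⟨a, ha⟩ := hspan
      apply hx0
      have ha0 : ∀ i, a i = 0 := by
        intro i
        have h1 := congrFun (congrFun hxS 1) i
        rw [Psi_apply, ha] at h1
        simpa [hvf] using h1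
      rw [ha]
      simp [ha0]
    let T : (G → Fin _ → k) →ₗ[k] (G → Fin _ → k) :=
      (Psi ρ f).toLinearMap ∘ₗ (Phi ρ v).toLinearMap
    have hTinj : Function.Injective T := (injective_iff_map_eq_zero T).2 hinj
    have hTsurj : Function.Surjective T := LinearMap.injective_iff_surjective.1 hTinj
    intro y
    obtain ⟨c, hc⟩ := hTsurj (Psi ρ f y)
    refine ⟨c, ?_⟩
    exact LinearMap.ker_eq_bot.1 hker hc
  have := LinearMap.finrank_le_finrank_of_surjective hsurj
  rw [Module.finrank_pi_fintype] at this
  simpa using this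

end decomp

end Pool.Agent.W449.Core
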