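import Pool.Agent.W449.Ses

/-!
# The syzygies of the trivial module of the Klein four group
-/

set_option autoImplicit false

open CategoryTheory MonoidalCategory Module

namespace Pool.Agent.W449.Klein

open Pool.Agent.W449.Core

/-- The Klein four group. -/
abbrev V4 : Type := Multiplicative (ZMod 2 × ZMod 2)

/-- The field with two elements. -/
abbrev F2 : Type := ZMod 2

section klein

variable {V : Type} [AddCommGroup V] [Module F2 V]

/-- The representation of the Klein four group given by two commuting involutions. -/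
def klein (A B : Module.End F2 V) (hA : A * A = 1) (hB : B * B = 1) (hAB : A * B = B * A) :
    Representation F2 V4 V where
  toFun g := (if (Multiplicative.toAdd g).1 = 0 then 1 else A) *
    (if (Multiplicative.toAdd g).2 = 0 then 1 else B)
  map_one' := by simp
  map_mul' g h := by
    obtain ⟨a, b⟩ := g
    obtain ⟨c, d⟩ := h
    change (if a + c = 0 then 1 else A) * (if b + d = 0 then 1 else B) =
      ((if a = 0 then 1 else A) * (if b = 0 then 1 else B)) *
      ((if c = 0 then 1 else A) * (if d = 0 then 1 else B))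
    have h2 : ∀ y : Module.End F2 V, B * (B * y) = y := fun y => by rw [← mul_assoc, hB, one_mul]
    have h4 : A * (B * A) = B := by rw [← hAB, ← mul_assoc, hA, one_mul]
    have z1 : (1 : ZMod 2) + 0 = 1 := rfl
    have z2 : (0 : ZMod 2) + 1 = 1 := rfl
    have z3 : (1 : ZMod 2) + 1 = 0 := rfl
    have c1 : (1 : ZMod 2) ≠ 0 := by decide
    have all : ∀ x : ZMod 2, x = 0 ∨ x = 1 := by decide
    rcases all a with rfl | rfl <;> rcases all b with rfl | rfl <;>
      rcases all c with rfl | rfl <;> rcases all d with rfl | rfl <;>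
      simp [z1, z2, z3, mul_assoc, hA, hB, h2, hAB, h4]

theorem klein_comm {W : Type} [AddCommGroup W] [Module F2 W] {A B : Module.End F2 V}
    {hA : A * A = 1} {hB : B * B = 1} {hAB : A * B = B * A} {A' B' : Module.End F2 W}
    {hA' : A' * A' = 1} {hB' : B' * B' = 1} {hAB' : A' * B' = B' * A'} (f : V →ₗ[F2] W)
    (h1 : ∀ x, f (A x) = A' (f x)) (h2 : ∀ x, f (B x) = B' (f x)) (g : V4) :
    f ∘ₗ klein A B hA hB hAB g = klein A' B' hA' hB' hAB' g ∘ₗ f := by
  ext x
  change f (((if (Multiplicative.toAdd g).1 = 0 then 1 else A) *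
    (if (Multiplicative.toAdd g).2 = 0 then 1 else B) : Module.End F2 V) x) =
    ((if (Multiplicative.toAdd g).1 = 0 then 1 else A') *
    (if (Multiplicative.toAdd g).2 = 0 then 1 else B') : Module.End F2 W) (f x)
  rw [Module.End.mul_apply, Module.End.mul_apply]
  split_ifs <;> simp [h1, h2]

/-- Morphisms between Klein representations. -/
def kleinHom {W : Type} [AddCommGroup W] [Module F2 W] {A B : Module.End F2 V}
    {hA : A * A = 1} {hB : B * B = 1} {hAB : A * B = B * A} {A' B' : Module.End F2 W}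
    {hA' : A' * A' = 1} {hB' : B' * B' = 1} {hAB' : A' * B' = B' * A'} (f : V →ₗ[F2] W)
    (h1 : ∀ x, f (A x) = A' (f x)) (h2 : ∀ x, f (B x) = B' (f x)) :
    Rep.of (klein A B hA hB hAB) ⟶ Rep.of (klein A' B' hA' hB' hAB') :=
  Rep.ofHom ⟨f, klein_comm f h1 h2⟩

theorem klein_sum {M : Type} [AddCommMonoid M]
    (φ : V4 → M) : ∑ g : V4, φ g = φ (Multiplicative.ofAdd (0, 0)) +
      φ (Multiplicative.ofAdd (0, 1)) + (φ (Multiplicative.ofAdd (1, 0)) +
      φ (Multiplicative.ofAdd (1, 1))) := by
  have h1 : ∑ g : V4, φ g = ∑ g : ZMod 2 × ZMod 2, φ (Multiplicative.ofAdd g) := rfl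
  rw [h1, Fintype.sum_prod_type]
  have h2 : ∀ ψ : ZMod 2 → M, ∑ x : ZMod 2, ψ x = ψ 0 + ψ 1 := fun ψ => Fin.sum_univ_two ψ
  rw [h2, h2, h2]

theorem klein_norm {A B : Module.End F2 V}
    {hA : A * A = 1} {hB : B * B = 1} {hAB : A * B = B * A} (x : V) :
    (klein A B hA hB hAB).norm x = x + B x + (A x + A (B x)) := by
  rw [Representation.norm, LinearMap.sum_apply, klein_sum]
  change ((1 : Module.End F2 V) * 1) x + ((1 : Module.End F2 V) * B) x +
    (((A : Module.End F2 V) * 1) x + (A * B) x) = _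
  simp

/-- The free Klein representation on a vector space, in the basis `1, X, Y, XY`. -/
def freeA (U : Type) [AddCommGroup U] [Module F2 U] : Module.End F2 (U × U × U × U) where
  toFun x := (x.1, x.2.1 + x.1, x.2.2.1, x.2.2.2 + x.2.2.1)
  map_add' x y := by ext <;> simp <;> abel
  map_smul' c x := by ext <;> simp

/-- The second operator of the free Klein representation. -/
def freeB (U : Type) [AddCommGroup U] [Module F2 U] : Module.End F2 (U × U × U × U) where
  toFun x := (x.1, x.2.1, x.2.2.1 + x.1, x.2.2.2 + x.2.1)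
  map_add' x y := by ext <;> simp <;> abel
  map_smul' c x := by ext <;> simp

theorem add_self_F2 (x : V) : x + x = 0 := by
  have : (x + x : V) = (2 : F2) • x := by rw [two_smul]
  rw [this, show (2 : F2) = 0 from rfl, zero_smul]

theorem add_add_cancel_F2 (x y : V) : x + y + y = x := by
  rw [add_assoc, add_self_F2, add_zero]

/-- The free Klein representation. -/
def freeK (U : Type) [AddCommGroup U] [Module F2 U] : Representation F2 V4 (U × U × U × U) :=
  klein (freeA U) (freeB U)
    (by
      refine LinearMap.ext fun x => ?_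
      obtain ⟨a, b, c, d⟩ := x
      simp [freeA, add_add_cancel_F2])
    (by
      refine LinearMap.ext fun x => ?_
      obtain ⟨a, b, c, d⟩ := x
      simp [freeB, add_add_cancel_F2])
    (by
      refine LinearMap.ext fun x => ?_
      obtain ⟨a, b, c, d⟩ := x
      simp [freeA, freeB, add_comm, add_left_comm])

theorem hig_freeK (U : Type) [AddCommGroup U] [Module F2 U] : Hig (freeK U) := by
  refine ⟨{ toFun := fun x => (x.1 + x.2.1 + x.2.2.1 + x.2.2.2, 0, 0, 0)
            map_add' := fun x y => by ext <;> simp <;> abel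
            map_smul' := fun c x => by ext <;> simp }, fun x => ?_⟩
  obtain ⟨a, b, c, d⟩ := x
  have e0 : ∀ z : U × U × U × U, freeK U (Multiplicative.ofAdd (0, 0)) z = z := by
    intro z
    change ((1 : Module.End F2 _) * 1) z = z
    simp
  have e1 : ∀ z : U × U × U × U, freeK U (Multiplicative.ofAdd (0, 1)) z = freeB U z := by
    intro z
    change ((1 : Module.End F2 (U × U × U × U)) * freeB U) z = _
    simp
  have e2 : ∀ z : U × U × U × U, freeK U (Multiplicative.ofAdd (1, 0)) z = freeA U z := by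
    intro z
    change (freeA U * 1) z = _
    simp
  have e3 : ∀ z : U × U × U × U, freeK U (Multiplicative.ofAdd (1, 1)) z =
      freeA U (freeB U z) := by
    intro z
    rfl
  have i0 : (Multiplicative.ofAdd ((0, 0) : ZMod 2 × ZMod 2))⁻¹ = Multiplicative.ofAdd (0, 0) := by
    decide
  have i1 : (Multiplicative.ofAdd ((0, 1) : ZMod 2 × ZMod 2))⁻¹ = Multiplicative.ofAdd (0, 1) := by
    decide
  have i2 : (Multiplicative.ofAdd ((1, 0) : ZMod 2 × ZMod 2))⁻¹ = Multiplicative.ofAdd (1, 0) := by
    decide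
  have i3 : (Multiplicative.ofAdd ((1, 1) : ZMod 2 × ZMod 2))⁻¹ = Multiplicative.ofAdd (1, 1) := by
    decide
  rw [klein_sum, i0, i1, i2, i3, e0, e1, e2, e3, e0, e1, e2, e3]
  simp only [freeA, freeB, LinearMap.coe_mk, AddHom.coe_mk, Prod.mk_add_mk, add_zero, zero_add,
    Prod.mk.injEq]
  have hs : ∀ x : U, x + x = 0 := fun x => add_self_F2 x
  have hs' : ∀ x y : U, x + (x + y) = y := fun x y => by rw [← add_assoc, hs, zero_add]
  refine ⟨?_, ?_, ?_, ?_⟩ <;>
    simp only [add_left_comm, add_comm, hs, hs', add_zero, zero_add]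


section two

variable {T S : Type} [AddCommGroup T] [Module F2 T] [AddCommGroup S] [Module F2 S]

/-- The operator `1 + X` on `T × S` where `X` maps `T` to `S`. -/
def twoOp (X : T →ₗ[F2] S) : Module.End F2 (T × S) where
  toFun x := (x.1, x.2 + X x.1)
  map_add' x y := by ext <;> simp; abel
  map_smul' c x := by ext <;> simp

@[simp] theorem twoOp_apply (X : T →ₗ[F2] S) (x : T × S) : twoOp X x = (x.1, x.2 + X x.1) := rfl

/-- The Klein representation given by two maps `T → S`. -/
def two (X Y : T →ₗ[F2] S) : Representation F2 V4 (T × S) :=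
  klein (twoOp X) (twoOp Y)
    (by
      refine LinearMap.ext fun x => ?_
      obtain ⟨a, b⟩ := x
      simp [add_add_cancel_F2])
    (by
      refine LinearMap.ext fun x => ?_
      obtain ⟨a, b⟩ := x
      simp [add_add_cancel_F2])
    (by
      refine LinearMap.ext fun x => ?_
      obtain ⟨a, b⟩ := x
      simp [add_comm, add_left_comm])

theorem two_norm (X Y : T →ₗ[F2] S) : (two X Y).norm = 0 := by
  refine LinearMap.ext fun x => ?_
  obtain ⟨a, b⟩ := x
  rw [two, klein_norm]
  have hs : ∀ x : T, x + x = 0 := fun x => add_self_F2 x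
  have hs1 : ∀ x : S, x + x = 0 := fun x => add_self_F2 x
  have hs' : ∀ x y : S, x + (x + y) = y := fun x y => by rw [← add_assoc, hs1, zero_add]
  simp only [twoOp_apply, Prod.mk_add_mk, hs, LinearMap.zero_apply, Prod.mk_eq_zero, add_zero,
    true_and]
  simp only [add_left_comm, add_comm, hs1, hs']

theorem w_two [FiniteDimensional F2 T] [FiniteDimensional F2 S] (X Y : T →ₗ[F2] S) :
    w (Rep.of (two X Y)) = finrank F2 T + finrank F2 S := by
  unfold w
  rw [Rep.of_ρ, two_norm, LinearMap.range_zero, finrank_bot]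
  change ((finrank F2 (T × S) : ℕ) : ℤ) - _ = _
  rw [Module.finrank_prod]
  push_cast
  ring

variable {U T' : Type} [AddCommGroup U] [Module F2 U] [AddCommGroup T'] [Module F2 T']

theorem ses_two [FiniteDimensional F2 U] (X Y : U →ₗ[F2] S) (X' Y' : T' →ₗ[F2] U)
    (h0 : ∀ t, X (Y' t) + Y (X' t) = 0)
    (h1 : ∀ b c, X b + Y c = 0 → ∃ t, Y' t = b ∧ X' t = c)
    (h2 : ∀ t, Y' t = 0 → X' t = 0 → t = 0)
    (h3 : ∀ s, ∃ b c, X b + Y c = s) (Z : Rep.{0} F2 V4) [FiniteDimensional F2 Z.V] :
    w (Rep.of (two X Y) ⊗ Z) = gg (Rep.of (two X' Y') ⊗ Z) := by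
  have hp : PFix F2 V4 := by
    have : Fact (Nat.Prime 2) := ⟨Nat.prime_two⟩
    refine pfix_of_isPGroup 2 F2 V4 (IsPGroup.of_card (n := 2) ?_)
    simp [Nat.card_eq_fintype_card]
  let i0 : (T' × U) →ₗ[F2] (U × U × U × U) :=
    { toFun := fun x => (0, Y' x.1, X' x.1, x.2)
      map_add' := fun x y => by ext <;> simp
      map_smul' := fun c x => by ext <;> simp }
  let q0 : (U × U × U × U) →ₗ[F2] (U × S) :=
    { toFun := fun x => (x.1, X x.2.1 + Y x.2.2.1)
      map_add' := fun x y => by ext <;> simp; abel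
      map_smul' := fun c x => by ext <;> simp }
  have hi0 : ∀ x, i0 x = (0, Y' x.1, X' x.1, x.2) := fun _ => rfl
  have hq0 : ∀ x, q0 x = (x.1, X x.2.1 + Y x.2.2.1) := fun _ => rfl
  let i : Rep.of (two X' Y') ⟶ Rep.of (freeK U) := kleinHom i0
    (by
      intro x
      simp [hi0, freeA])
    (by
      intro x
      simp [hi0, freeB])
  let q : Rep.of (freeK U) ⟶ Rep.of (two X Y) := kleinHom q0
    (by
      intro x
      simp [hq0, freeA]
      abel)
    (by
      intro x
      simp [hq0, freeB]
      abel)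
  refine w_tensor_eq hp (F := Rep.of (freeK U)) i q ?_ ?_ ?_ (hig_freeK U) Z
  · intro x y hxy
    have h4 : i0 x = i0 y := hxy
    rw [hi0, hi0] at h4
    simp only [Prod.mk.injEq, true_and] at h4
    have h5 : x.1 - y.1 = 0 := h2 _ (by rw [map_sub, h4.1, sub_self])
      (by rw [map_sub, h4.2.1, sub_self])
    exact Prod.ext (sub_eq_zero.1 h5) h4.2.2
  · rintro ⟨u, s⟩
    obtain ⟨b, c, hbc⟩ := h3 s
    refine ⟨(u, b, c, 0), ?_⟩
    change q0 _ = _
    rw [hq0]
    exact Prod.ext rfl hbc
  · rintro ⟨a, b, c, d⟩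
    change q0 _ = 0 ↔ ∃ x, i0 x = _
    rw [hq0]
    constructor
    · intro h
      simp only [Prod.mk_eq_zero] at h
      obtain ⟨t, ht1, ht2⟩ := h1 b c h.2
      refine ⟨(t, d), ?_⟩
      rw [hi0]
      simp [ht1, ht2, h.1]
    · rintro ⟨x, hx⟩
      rw [hi0] at hx
      simp only [Prod.mk.injEq] at hx
      obtain ⟨hx1, hx2, hx3, hx4⟩ := hx
      simp only [Prod.mk_eq_zero]
      refine ⟨hx1.symm, ?_⟩
      rw [← hx2, ← hx3]
      exact h0 _

end two

end klein

end Pool.Agent.W449.Klein
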