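import Pool.Agent.W449.Core

/-!
# Short exact sequences with relatively projective middle term, and core dimensions
-/

set_option autoImplicit false

open CategoryTheory MonoidalCategory Module

namespace Pool.Agent.W449.Core

variable {k G : Type} [Field k] [Group G] [Fintype G]

/-- Equivalences of representations preserve the rank of the norm. -/
theorem finrank_range_norm_congr {V W : Type} [AddCommGroup V] [Module k V] [AddCommGroup W]
    [Module k W] {ρ : Representation k G V} {τ : Representation k G W} (e : ρ.Equiv τ) :
    finrank k (LinearMap.range ρ.norm) = finrank k (LinearMap.range τ.norm) := by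
  have h1 : τ.norm ∘ₗ e.toLinearEquiv.toLinearMap = e.toLinearEquiv.toLinearMap ∘ₗ ρ.norm := by
    ext x
    simp only [LinearMap.comp_apply, Representation.norm, LinearMap.sum_apply, map_sum]
    refine Finset.sum_congr rfl fun g _ => ?_
    exact (e.toIntertwiningMap.isIntertwining _ _ g x).symm
  have h2 : LinearMap.range τ.norm = (LinearMap.range ρ.norm).map e.toLinearEquiv.toLinearMap := by
    rw [← LinearMap.range_comp, ← h1, LinearMap.range_comp_of_range_eq_top]
    exact LinearEquiv.range _
  rw [h2]
  exact (LinearEquiv.finrank_map_eq e.toLinearEquiv _).symm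

theorem w_congr {X Y : Rep.{0} k G} (e : X ≅ Y) : w X = w Y := by
  have e' := Representation.equivOfIso e
  unfold w
  rw [finrank_range_norm_congr e', e'.toLinearEquiv.finrank_eq]

omit [Fintype G] in
theorem finrank_invariants_congr {V W : Type} [AddCommGroup V] [Module k V] [AddCommGroup W]
    [Module k W] {ρ : Representation k G V} {τ : Representation k G W} (e : ρ.Equiv τ) :
    finrank k ρ.invariants = finrank k τ.invariants := by
  have h2 : τ.invariants = ρ.invariants.map e.toLinearEquiv.toLinearMap := by
    ext y
    constructor
    · intro hy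
      refine ⟨e.symm y, ?_, ?_⟩
      · intro g
        have := e.symm.toIntertwiningMap.isIntertwining _ _ g y
        have h3 : τ g y = y := hy g
        rw [h3] at this
        exact this.symm
      · exact e.apply_symm_apply y
    · rintro ⟨x, hx, rfl⟩ g
      have := e.toIntertwiningMap.isIntertwining _ _ g x
      have h3 : ρ g x = x := hx g
      rw [h3] at this
      exact this.symm
  rw [h2]
  exact (LinearEquiv.finrank_map_eq e.toLinearEquiv _).symm

theorem gg_congr {X Y : Rep.{0} k G} (e : X ≅ Y) : gg X = gg Y := by
  have e' := Representation.equivOfIso e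
  unfold gg
  rw [finrank_invariants_congr e', e'.toLinearEquiv.finrank_eq]

theorem norm_prod {V W : Type} [AddCommGroup V] [Module k V] [AddCommGroup W]
    [Module k W] (ρ : Representation k G V) (τ : Representation k G W) :
    (ρ.prod τ).norm = ρ.norm.prodMap τ.norm := by
  refine LinearMap.ext fun x => ?_
  obtain ⟨x, y⟩ := x
  simp [Representation.norm, LinearMap.sum_apply, LinearMap.prodMap_apply,
    Prod.ext_iff, Prod.fst_sum, Prod.snd_sum]

/-- The product of two submodules. -/
def prodSub {V W : Type} [AddCommGroup V] [Module k V] [AddCommGroup W]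
    [Module k W] (p : Submodule k V) (q : Submodule k W) : (p.prod q) ≃ₗ[k] (p × q) where
  toFun x := (⟨x.1.1, x.2.1⟩, ⟨x.1.2, x.2.2⟩)
  invFun y := ⟨(y.1.1, y.2.1), ⟨y.1.2, y.2.2⟩⟩
  map_add' _ _ := rfl
  map_smul' _ _ := rfl
  left_inv _ := rfl
  right_inv _ := rfl

theorem finrank_range_norm_prod {V W : Type} [AddCommGroup V] [Module k V] [AddCommGroup W]
    [Module k W] [FiniteDimensional k V] [FiniteDimensional k W]
    (ρ : Representation k G V) (τ : Representation k G W) :
    finrank k (LinearMap.range (ρ.prod τ).norm) =
      finrank k (LinearMap.range ρ.norm) + finrank k (LinearMap.range τ.norm) := by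
  rw [norm_prod, LinearMap.range_prodMap, (prodSub _ _).finrank_eq, Module.finrank_prod]

/-- `w` is additive. -/
theorem w_prod {V W : Type} [AddCommGroup V] [Module k V] [AddCommGroup W]
    [Module k W] [FiniteDimensional k V] [FiniteDimensional k W]
    (ρ : Representation k G V) (τ : Representation k G W) :
    w (Rep.of (ρ.prod τ)) = w (Rep.of ρ) + w (Rep.of τ) := by
  unfold w
  rw [Rep.of_ρ, finrank_range_norm_prod]
  change ((finrank k (V × W) : ℕ) : ℤ) - _ = _
  rw [Module.finrank_prod]
  push_cast
  ring

theorem w_nonneg (hfix : PFix k G) (X : Rep.{0} k G) [FiniteDimensional k X.V] : 0 ≤ w X := by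
  have := card_mul_rank_le X.ρ hfix
  unfold w
  have h : ((Fintype.card G * finrank k (LinearMap.range X.ρ.norm) : ℕ) : ℤ) ≤ finrank k X.V := by
    exact_mod_cast this
  push_cast at h
  linarith

theorem Hig.range_eq {V : Type} [AddCommGroup V] [Module k V] {ρ : Representation k G V}
    (h : Hig ρ) : LinearMap.range ρ.norm = ρ.invariants := by
  apply le_antisymm
  · rintro _ ⟨x, rfl⟩ g
    exact ρ.self_norm_apply g x
  · intro x hx
    exact h.invariants_le x hx

/-- The fundamental identity for a short exact sequence with relatively projective middle. -/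
theorem w_eq_gg (hfix : PFix k G) {A F C : Rep.{0} k G} [FiniteDimensional k F.V]
    (i : A ⟶ F) (q : F ⟶ C) (hi : Function.Injective i.hom) (hq : Function.Surjective q.hom)
    (hex : ∀ x, q.hom x = 0 ↔ ∃ a, i.hom a = x) (hF : Hig F.ρ) : w C = gg A := by
  have hAfin : FiniteDimensional k A.V :=
    FiniteDimensional.of_injective i.hom.toLinearMap hi
  have hdim : finrank k F.V = finrank k A.V + finrank k C.V := by
    have h1 := LinearMap.finrank_range_add_finrank_ker q.hom.toLinearMap
    have h2 : LinearMap.ker q.hom.toLinearMap = LinearMap.range i.hom.toLinearMap := by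
      ext x
      exact hex x
    rw [h2, LinearMap.finrank_range_of_inj hi, LinearMap.range_eq_top.2 hq, finrank_top] at h1
    omega
  have hnorm : LinearMap.range C.ρ.norm = (LinearMap.range F.ρ.norm).map q.hom.toLinearMap := by
    have h1 : C.ρ.norm ∘ₗ q.hom.toLinearMap = q.hom.toLinearMap ∘ₗ F.ρ.norm := by
      ext x
      simp only [LinearMap.comp_apply, Representation.norm, LinearMap.sum_apply, map_sum]
      refine Finset.sum_congr rfl fun g _ => ?_
      exact (q.hom.isIntertwining _ _ g x).symm
    rw [← LinearMap.range_comp, ← h1, LinearMap.range_comp_of_range_eq_top]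
    exact LinearMap.range_eq_top.2 hq
  have hR := hF.range_eq
  have hFd := hF.finrank_eq hfix
  have h3 : finrank k (LinearMap.range C.ρ.norm) + finrank k A.ρ.invariants =
      finrank k (LinearMap.range F.ρ.norm) := by
    rw [hnorm]
    have h4 := LinearMap.finrank_range_add_finrank_ker
      (q.hom.toLinearMap.domRestrict (LinearMap.range F.ρ.norm))
    rw [LinearMap.range_domRestrict] at h4
    rw [← h4]
    congr 1
    -- the kernel is isomorphic with the invariants of A
    let φ : A.ρ.invariants →ₗ[k]
        LinearMap.ker (q.hom.toLinearMap.domRestrict (LinearMap.range F.ρ.norm)) :=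
      { toFun := fun a => ⟨⟨i.hom a, by
            rw [hR]
            intro g
            have := i.hom.isIntertwining _ _ g (a : A.V)
            rw [← this]
            congr 1
            exact a.2 g⟩, by
            rw [LinearMap.mem_ker]
            exact (hex _).2 ⟨_, rfl⟩⟩
        map_add' := fun a b => by
          apply Subtype.ext; apply Subtype.ext
          exact map_add i.hom _ _
        map_smul' := fun c a => by
          apply Subtype.ext; apply Subtype.ext
          exact map_smul i.hom _ _ }
    have hφ : Function.Bijective φ := by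
      constructor
      · intro a b hab
        apply Subtype.ext
        apply hi
        exact congrArg (fun z => ((z : LinearMap.range F.ρ.norm) : F.V)) (congrArg Subtype.val hab)
      · rintro ⟨⟨x, hx⟩, hx'⟩
        rw [LinearMap.mem_ker] at hx'
        obtain ⟨a, ha⟩ := (hex x).1 hx'
        refine ⟨⟨a, ?_⟩, ?_⟩
        · intro g
          apply hi
          rw [hR] at hx
          have h5 := i.hom.isIntertwining _ _ g a
          refine h5.trans ?_
          rw [ha]
          exact hx g
        · apply Subtype.ext; apply Subtype.ext
          exact ha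
    exact (LinearEquiv.ofBijective φ hφ).finrank_eq
  unfold w gg
  rw [hFd] at hdim
  have h6 : (Fintype.card G : ℤ) * finrank k (LinearMap.range F.ρ.norm) =
      finrank k A.V + finrank k C.V := by exact_mod_cast hdim
  have h7 : (finrank k (LinearMap.range C.ρ.norm) : ℤ) + finrank k A.ρ.invariants =
      finrank k (LinearMap.range F.ρ.norm) := by exact_mod_cast h3
  rw [← h7] at h6
  linarith

/-- The tensored version. -/
theorem w_tensor_eq (hfix : PFix k G) {A F C : Rep.{0} k G} [FiniteDimensional k F.V]
    (i : A ⟶ F) (q : F ⟶ C) (hi : Function.Injective i.hom) (hq : Function.Surjective q.hom)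
    (hex : ∀ x, q.hom x = 0 ↔ ∃ a, i.hom a = x) (hF : Hig F.ρ)
    (Z : Rep.{0} k G) [FiniteDimensional k Z.V] : w (C ⊗ Z) = gg (A ⊗ Z) := by
  have hfin : FiniteDimensional k (F ⊗ Z).V := by
    change FiniteDimensional k (TensorProduct k F.V Z.V)
    infer_instance
  refine w_eq_gg hfix (i ▷ Z) (q ▷ Z) ?_ ?_ ?_ ?_
  · exact Module.Flat.rTensor_preserves_injective_linearMap i.hom.toLinearMap hi
  · exact LinearMap.rTensor_surjective Z.V hq
  · have h1 : Function.Exact i.hom.toLinearMap q.hom.toLinearMap := fun x => hex x
    have h2 := rTensor_exact Z.V h1 hq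
    exact fun x => h2 x
  · exact hF.tprod Z.ρ

end Pool.Agent.W449.Core
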