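import Pool.Agent.W449.Klein

/-!
# The syzygies of the trivial module of the Klein four group, and the recursion
-/

set_option autoImplicit false

open CategoryTheory MonoidalCategory Module

namespace Pool.Agent.W449.Klein

open Pool.Agent.W449.Core

/-- `f ↦ f ∘ castSucc`. -/
def dX (m : ℕ) : (Fin (m + 1) → F2) →ₗ[F2] (Fin m → F2) := LinearMap.funLeft F2 F2 Fin.castSucc

/-- `f ↦ f ∘ succ`. -/
def dY (m : ℕ) : (Fin (m + 1) → F2) →ₗ[F2] (Fin m → F2) := LinearMap.funLeft F2 F2 Fin.succ

theorem dX_apply (m : ℕ) (f : Fin (m + 1) → F2) (i : Fin m) : dX m f i = f i.castSucc := rfl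

theorem dY_apply (m : ℕ) (f : Fin (m + 1) → F2) (i : Fin m) : dY m f i = f i.succ := rfl

/-- `f ↦ snoc f 0`. -/
def uX (m : ℕ) : (Fin m → F2) →ₗ[F2] (Fin (m + 1) → F2) where
  toFun f := Fin.snoc (α := fun _ => F2) f 0
  map_add' f g := by
    funext i
    refine Fin.lastCases ?_ (fun i => ?_) i <;> simp
  map_smul' c f := by
    funext i
    refine Fin.lastCases ?_ (fun i => ?_) i <;> simp

/-- `f ↦ cons 0 f`. -/
def uY (m : ℕ) : (Fin m → F2) →ₗ[F2] (Fin (m + 1) → F2) where
  toFun f := Fin.cons (α := fun _ => F2) 0 f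
  map_add' f g := by
    funext i
    refine Fin.cases ?_ (fun i => ?_) i <;> simp
  map_smul' c f := by
    funext i
    refine Fin.cases ?_ (fun i => ?_) i <;> simp

@[simp] theorem uX_castSucc (m : ℕ) (f : Fin m → F2) (i : Fin m) : uX m f i.castSucc = f i := by
  change Fin.snoc (α := fun _ => F2) f 0 i.castSucc = _
  simp

@[simp] theorem uX_last (m : ℕ) (f : Fin m → F2) : uX m f (Fin.last m) = 0 := by
  change Fin.snoc (α := fun _ => F2) f 0 (Fin.last m) = _
  simp

@[simp] theorem uY_succ (m : ℕ) (f : Fin m → F2) (i : Fin m) : uY m f i.succ = f i := by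
  change Fin.cons (α := fun _ => F2) 0 f i.succ = _
  simp

@[simp] theorem uY_zero (m : ℕ) (f : Fin m → F2) : uY m f 0 = 0 := by
  change Fin.cons (α := fun _ => F2) 0 f 0 = _
  simp

theorem F2_add_self (x : F2) : x + x = 0 := by
  revert x; decide

theorem F2_eq_of_add {x y : F2} (h : x + y = 0) : x = y := by
  revert x y; decide

/-- The syzygies `Ω^m k` for `m ≥ 0`. -/
noncomputable abbrev Wp (m : ℕ) : Rep.{0} F2 V4 := Rep.of (two (dX m) (dY m))

/-- The syzygies `Ω^{-m} k` for `m ≥ 0`. -/
noncomputable abbrev Wn (m : ℕ) : Rep.{0} F2 V4 := Rep.of (two (uX m) (uY m))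

theorem w_Wp (m : ℕ) : w (Wp m) = 2 * m + 1 := by
  rw [w_two]; simp; ring

theorem w_Wn (m : ℕ) : w (Wn m) = 2 * m + 1 := by
  rw [w_two]; simp; ring

theorem w_Wp_tensor (m : ℕ) (Z : Rep.{0} F2 V4) [FiniteDimensional F2 Z.V] :
    w (Wp m ⊗ Z) = gg (Wp (m + 1) ⊗ Z) := by
  refine ses_two (dX m) (dY m) (dX (m + 1)) (dY (m + 1)) ?_ ?_ ?_ ?_ Z
  · intro t
    funext i
    simp only [Pi.add_apply, dX_apply, dY_apply, Pi.zero_apply]
    rw [← Fin.succ_castSucc]
    exact F2_add_self _
  · intro b c h
    refine ⟨Fin.cons (α := fun _ => F2) (c 0) b, ?_, ?_⟩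
    · funext i
      rw [dY_apply]
      simp
    · funext i
      rw [dX_apply]
      refine Fin.cases ?_ (fun i => ?_) i
      · simp
      · rw [← Fin.succ_castSucc, Fin.cons_succ]
        have := congrFun h i
        simp only [Pi.add_apply, dX_apply, dY_apply, Pi.zero_apply] at this
        exact F2_eq_of_add this
  · intro t h1 h2
    funext i
    refine Fin.cases ?_ (fun i => ?_) i
    · exact congrFun h2 0
    · exact congrFun h1 i
  · intro s
    refine ⟨Fin.snoc (α := fun _ => F2) s 0, 0, ?_⟩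
    funext i
    simp [dX_apply]

theorem w_Wn_tensor (m : ℕ) (Z : Rep.{0} F2 V4) [FiniteDimensional F2 Z.V] :
    w (Wn (m + 1) ⊗ Z) = gg (Wn m ⊗ Z) := by
  refine ses_two (uX (m + 1)) (uY (m + 1)) (uX m) (uY m) ?_ ?_ ?_ ?_ Z
  · intro t
    funext i
    simp only [Pi.add_apply, Pi.zero_apply]
    refine Fin.cases ?_ (fun i => ?_) i
    · have h1 : (0 : Fin (m + 1 + 1)) = (0 : Fin (m + 1)).castSucc := rfl
      rw [uY_zero]
      rw [h1, uX_castSucc, uY_zero, add_zero]
    · rw [uY_succ]
      refine Fin.lastCases ?_ (fun i => ?_) i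
      · rw [Fin.succ_last, uX_last, uX_last, add_zero]
      · rw [Fin.succ_castSucc, uX_castSucc, uX_castSucc, uY_succ]
        exact F2_add_self _
  · intro b c h
    have hb0 : b 0 = 0 := by
      have := congrFun h 0
      have h1 : (0 : Fin (m + 1 + 1)) = (0 : Fin (m + 1)).castSucc := rfl
      simp only [Pi.add_apply, Pi.zero_apply, uY_zero, add_zero] at this
      rw [h1, uX_castSucc] at this
      exact this
    refine ⟨fun i => b i.succ, ?_, ?_⟩
    · funext i
      refine Fin.cases ?_ (fun i => ?_) i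
      · rw [uY_zero, hb0]
      · rw [uY_succ]
    · funext i
      refine Fin.lastCases ?_ (fun i => ?_) i
      · rw [uX_last]
        have := congrFun h (Fin.last (m + 1))
        simp only [Pi.add_apply, Pi.zero_apply, uX_last, zero_add] at this
        rw [← Fin.succ_last, uY_succ] at this
        exact this.symm
      · rw [uX_castSucc]
        have := congrFun h i.succ.castSucc
        simp only [Pi.add_apply, Pi.zero_apply, uX_castSucc] at this
        rw [← Fin.succ_castSucc, uY_succ] at this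
        exact F2_eq_of_add this
  · intro t h1 _
    funext i
    have := congrFun h1 i.succ
    rw [uY_succ] at this
    exact this
  · intro s
    refine ⟨Fin.cons (α := fun _ => F2) (s 0) 0, fun i => s i.succ, ?_⟩
    funext i
    simp only [Pi.add_apply]
    refine Fin.cases ?_ (fun i => ?_) i
    · have h1 : (0 : Fin (m + 1 + 1)) = (0 : Fin (m + 1)).castSucc := rfl
      rw [uY_zero]
      rw [h1, uX_castSucc]
      simp
    · rw [uY_succ]
      refine Fin.lastCases ?_ (fun i => ?_) i
      · rw [Fin.succ_last, uX_last, zero_add]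
      · rw [Fin.succ_castSucc, uX_castSucc, ← Fin.succ_castSucc]
        simp

end Pool.Agent.W449.Klein
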